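import Pool.Agent.Lib.helper11.ETRRank

namespace Pool.Agent.Results.MP_51fc0b_lc.FixedRank

open Pool.Agent.Cx

theorem result (r : ℕ) (hr : 2 ≤ r) :
    ERHard (Lang fun M : List (List Ent) => Square M ∧ ∃ x, rankAt M x ≤ r) :=
  (rh_fma.red (rmat_pt r) fun E => (rmat_iff hr E).trans (and_iff_right (rmat_sq r E)).symm).erHard

end Pool.Agent.Results.MP_51fc0b_lc.FixedRank
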